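import Pool.Agent.helper616_TR.Defs
import Pool.Agent.helper616_RP.Defs

/-!
# Project TZ (helper616): primes in short intervals on average
-/

set_option autoImplicit false
set_option maxHeartbeats 4000000

open Finset MeasureTheory Filter Topology
open Pool.Agent.helper616_RP (th S_VAR)

namespace Pool.Agent.helper616_TW

namespace TZ1


theorem partA (hH : Hoheisel) (η : ℝ) (hη : 0 < η) (hη1 : η ≤ 1) :
    ∃ c0 : ℝ, 0 < c0 ∧ ∀ᶠ P : ℕ in atTop, c0 * P / Real.log P ≤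
      (((Icc 1 P).filter (fun q : ℕ => q.Prime ∧ η * P / 2 < q ∧ (q : ℝ) ≤ η * P)).card : ℝ) := by
  obtain ⟨δ, η0, hδ0, hδ1, hη0, X0, hX02, hpr⟩ := hH
  refine ⟨η0 * η / 8, by positivity, ?_⟩
  have ev : ∀ᶠ P : ℕ in atTop, max (X0 : ℝ) (max 8 ((4 : ℝ) ^ (1 / δ))) ≤ η / 2 * (P : ℝ) :=
    (tendsto_natCast_atTop_atTop.const_mul_atTop (by positivity : 0 < η / 2)).eventually_ge_atTop _
  filter_upwards [ev, eventually_ge_atTop 2] with P h1 hP2
  have h1a : (X0 : ℝ) ≤ η / 2 * P := (le_max_left _ _).trans h1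
  have h1b : (8 : ℝ) ≤ η / 2 * P := (le_max_left _ _).trans ((le_max_right _ _).trans h1)
  have h1c : (4 : ℝ) ^ (1 / δ) ≤ η / 2 * P := (le_max_right _ _).trans ((le_max_right _ _).trans h1)
  have hP0 : (2 : ℝ) ≤ P := by exact_mod_cast hP2
  have hηP : η * (P : ℝ) ≤ P := by nlinarith
  obtain ⟨X, hX⟩ : ∃ X : ℕ, X = ⌈η * P / 2⌉₊ := ⟨_, rfl⟩
  have hX1 : η * P / 2 ≤ (X : ℝ) := by rw [hX]; exact Nat.le_ceil _
  have hX2 : (X : ℝ) < η * P / 2 + 1 := by rw [hX]; exact Nat.ceil_lt_add_one (by positivity)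
  have hX8 : (8 : ℝ) ≤ X := by linarith
  have hXX0 : X0 ≤ X := by
    have : (X0 : ℝ) ≤ X := by linarith
    exact_mod_cast this
  have hY1 : (X : ℝ) ≤ 2 * ((X / 2 : ℕ) : ℝ) + 1 := by
    have : X ≤ 2 * (X / 2) + 1 := by omega
    exact_mod_cast this
  have hY2 : 2 * ((X / 2 : ℕ) : ℝ) ≤ X := by
    have : 2 * (X / 2) ≤ X := by omega
    exact_mod_cast this
  have hX0' : (0 : ℝ) < X := by linarith
  have hpow : (4 : ℝ) ≤ (X : ℝ) ^ δ := by
    have e : ((4 : ℝ) ^ (1 / δ)) ^ δ = 4 := by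
      rw [← Real.rpow_mul (by norm_num), one_div, inv_mul_cancel₀ hδ0.ne', Real.rpow_one]
    rw [← e]
    exact Real.rpow_le_rpow (by positivity) (by linarith) hδ0.le
  have hYpow : (X : ℝ) ^ (1 - δ) ≤ ((X / 2 : ℕ) : ℝ) := by
    rw [Real.rpow_sub hX0', Real.rpow_one, div_le_iff₀ (by positivity)]
    nlinarith
  have hcount := hpr X (X / 2) hXX0 hYpow (Nat.div_le_self _ _)
  have hsub : (Ioc X (X + X / 2)).filter Nat.Prime ⊆
      (Icc 1 P).filter (fun q : ℕ => q.Prime ∧ η * P / 2 < q ∧ (q : ℝ) ≤ η * P) := by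
    intro q hq
    rw [mem_filter, mem_Ioc] at hq
    obtain ⟨⟨hq1, hq2⟩, hqp⟩ := hq
    have hq1' : (X : ℝ) < q := by exact_mod_cast hq1
    have hq2' : (q : ℝ) ≤ X + ((X / 2 : ℕ) : ℝ) := by exact_mod_cast hq2
    have hq3 : (q : ℝ) ≤ η * P := by linarith
    rw [mem_filter, mem_Icc]
    refine ⟨⟨hqp.one_lt.le, ?_⟩, hqp, by linarith, hq3⟩
    have : (q : ℝ) ≤ P := hq3.trans hηP
    exact_mod_cast this
  have hcard : ((((Ioc X (X + X / 2)).filter Nat.Prime).card : ℕ) : ℝ) ≤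
      (((Icc 1 P).filter (fun q : ℕ => q.Prime ∧ η * P / 2 < q ∧ (q : ℝ) ≤ η * P)).card : ℝ) := by
    exact_mod_cast card_le_card hsub
  refine le_trans ?_ (hcount.trans hcard)
  have hlogX : 0 < Real.log X := Real.log_pos (by linarith)
  have hlogXP : Real.log X ≤ Real.log P := Real.log_le_log hX0' (by linarith)
  rw [div_le_div_iff₀ (by linarith) hlogX]
  have h5 : η0 * η / 8 * P ≤ η0 * ((X / 2 : ℕ) : ℝ) := by
    have : η / 8 * P ≤ ((X / 2 : ℕ) : ℝ) := by linarith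
    nlinarith
  calc η0 * η / 8 * P * Real.log X ≤ η0 * ((X / 2 : ℕ) : ℝ) * Real.log X :=
        mul_le_mul_of_nonneg_right h5 hlogX.le
    _ ≤ η0 * ((X / 2 : ℕ) : ℝ) * Real.log P :=
        mul_le_mul_of_nonneg_left hlogXP (by positivity)

theorem partB (P v W : ℕ) (hP : 1 ≤ P) (hv : v < P) (hW : W ≤ P) :
    (W : ℝ) + ∑ s ∈ Icc 1 W, (th (v + s) - 1) ≤
      (((Ioc v (v + W)).filter Nat.Prime).card : ℝ) * Real.log (2 * P) := by
  have e1 : (W : ℝ) + ∑ s ∈ Icc 1 W, (th (v + s) - 1) = ∑ s ∈ Icc 1 W, th (v + s) := by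
    rw [sum_sub_distrib, sum_const, Nat.card_Icc, nsmul_eq_mul]
    push_cast
    simp
  rw [e1]
  have e2 : ∑ s ∈ Icc 1 W, th (v + s) =
      ∑ s ∈ (Icc 1 W).filter (fun s => (v + s).Prime), Real.log ((v + s : ℕ) : ℝ) := by
    rw [sum_filter]
    rfl
  rw [e2]
  have h1 : ∀ s ∈ (Icc 1 W).filter (fun s => (v + s).Prime),
      Real.log ((v + s : ℕ) : ℝ) ≤ Real.log (2 * P) := by
    intro s hs
    rw [mem_filter, mem_Icc] at hs
    apply Real.log_le_log
    · exact_mod_cast (by omega : 0 < v + s)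
    · exact_mod_cast (by omega : v + s ≤ 2 * P)
  have h2 := sum_le_sum h1
  rw [sum_const, nsmul_eq_mul] at h2
  refine h2.trans ?_
  have hlog : 0 ≤ Real.log (2 * P) := by
    apply Real.log_nonneg
    have : (1 : ℝ) ≤ P := by exact_mod_cast hP
    linarith
  refine mul_le_mul_of_nonneg_right ?_ hlog
  have h3 : ((Icc 1 W).filter (fun s => (v + s).Prime)).card ≤
      ((Ioc v (v + W)).filter Nat.Prime).card := by
    apply card_le_card_of_injOn (fun s => v + s)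
    · intro s hs
      have hs' := hs
      rw [mem_coe, mem_filter, mem_Icc] at hs'
      rw [mem_coe, mem_filter, mem_Ioc]
      show (v < v + s ∧ v + s ≤ v + W) ∧ (v + s).Prime
      exact ⟨⟨by omega, by omega⟩, hs'.2⟩
    · intro a _ b _ h
      simpa using h
  exact_mod_cast h3

/-- primes in short intervals starting at the points `u q`, on average over `q` -/
theorem abstractV (hH : Hoheisel) (hV : S_VAR) (η κ : ℝ) (hη : 0 < η) (hη1 : η ≤ 1) (hκ : 0 < κ) (M : ℕ) :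
    ∃ c : ℝ, 0 < c ∧ ∀ᶠ P : ℕ in atTop, ∀ (W : ℕ) (u : ℕ → ℕ), κ * (P : ℝ) ^ ((2 : ℝ) / 5) ≤ W → W ≤ P →
      (∀ q ∈ (Icc 1 P).filter (fun q : ℕ => η * P / 2 < q ∧ (q : ℝ) ≤ η * P), u q < P) →
      (∀ v : ℕ, (((Icc 1 P).filter (fun q : ℕ => η * P / 2 < q ∧ (q : ℝ) ≤ η * P)).filter (fun q => u q = v)).card ≤ M) →
      c * P * W / (Real.log P) ^ 2 ≤
        ∑ q ∈ (Icc 1 P).filter (fun q : ℕ => q.Prime ∧ η * P / 2 < q ∧ (q : ℝ) ≤ η * P),
          (((Ioc (u q) (u q + W)).filter Nat.Prime).card : ℝ) := by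
  obtain ⟨c0, hc0, hA⟩ := partA hH η hη hη1
  obtain ⟨X1, hV1⟩ := hV (3 / 8) (by norm_num) 4
  refine ⟨c0 / 4, by positivity, ?_⟩
  have evd : ∀ᶠ P : ℕ in atTop, κ⁻¹ ≤ (P : ℝ) ^ ((1 : ℝ) / 40) :=
    ((tendsto_rpow_atTop (by norm_num : (0 : ℝ) < 1 / 40)).comp
      tendsto_natCast_atTop_atTop).eventually_ge_atTop _
  have eve : ∀ᶠ P : ℕ in atTop, max (Real.log 2) (max 1 (2 * √M / c0)) ≤ Real.log (P : ℝ) :=
    (Real.tendsto_log_atTop.comp tendsto_natCast_atTop_atTop).eventually_ge_atTop _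
  filter_upwards [hA, evd, eve, eventually_ge_atTop X1, eventually_ge_atTop 1] with P hA hd he hX1 hP1
  intro W u hκW hWP hu hmul
  have hP0 : (0 : ℝ) < P := by exact_mod_cast hP1
  have he1 : Real.log 2 ≤ Real.log P := (le_max_left _ _).trans he
  have he2 : 1 ≤ Real.log (P : ℝ) := (le_max_left _ _).trans ((le_max_right _ _).trans he)
  have he3 : 2 * √M / c0 ≤ Real.log P := (le_max_right _ _).trans ((le_max_right _ _).trans he)
  have hl0 : 0 < Real.log (P : ℝ) := by linarith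
  have hWt : (P : ℝ) ^ ((3 : ℝ) / 8) ≤ W := by
    refine le_trans ?_ hκW
    have e : (P : ℝ) ^ ((2 : ℝ) / 5) = (P : ℝ) ^ ((3 : ℝ) / 8) * (P : ℝ) ^ ((1 : ℝ) / 40) := by
      rw [← Real.rpow_add hP0]; norm_num
    rw [e]
    have h1 : 1 ≤ κ * (P : ℝ) ^ ((1 : ℝ) / 40) := by
      have := mul_le_mul_of_nonneg_left hd hκ.le
      rwa [mul_inv_cancel₀ hκ.ne'] at this
    have h2 : 0 ≤ (P : ℝ) ^ ((3 : ℝ) / 8) := by positivity
    nlinarith [mul_le_mul_of_nonneg_left h1 h2]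
  have hvar := hV1 P hX1 W hWt hWP
  set R := (Icc 1 P).filter (fun q : ℕ => η * P / 2 < q ∧ (q : ℝ) ≤ η * P) with hR
  set Q := (Icc 1 P).filter (fun q : ℕ => q.Prime ∧ η * P / 2 < q ∧ (q : ℝ) ≤ η * P) with hQ
  have hQR : Q ⊆ R := by
    intro q hq
    rw [hQ, mem_filter] at hq
    rw [hR, mem_filter]
    exact ⟨hq.1, hq.2.2⟩
  set D : ℕ → ℝ := fun v => ∑ s ∈ Icc 1 W, (th (v + s) - 1) with hD
  -- the second moment
  have hsum2 : ∑ q ∈ Q, (D (u q)) ^ 2 ≤ M * (P * (W : ℝ) ^ 2 / (Real.log P) ^ 4) := by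
    calc ∑ q ∈ Q, (D (u q)) ^ 2 ≤ ∑ q ∈ R, (D (u q)) ^ 2 :=
          sum_le_sum_of_subset_of_nonneg hQR fun _ _ _ => sq_nonneg _
      _ = ∑ v ∈ range P, ∑ q ∈ R.filter (fun q => u q = v), (D (u q)) ^ 2 :=
          (sum_fiberwise_of_maps_to (fun q hq => mem_range.2 (hu q hq)) _).symm
      _ ≤ ∑ v ∈ range P, (M : ℝ) * (D v) ^ 2 := by
          refine sum_le_sum fun v _ => ?_
          have h1 : ∑ q ∈ R.filter (fun q => u q = v), (D (u q)) ^ 2 =
              ((R.filter (fun q => u q = v)).card : ℝ) * (D v) ^ 2 := by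
            rw [← nsmul_eq_mul, ← sum_const]
            refine sum_congr rfl fun q hq => ?_
            rw [(mem_filter.1 hq).2]
          rw [h1]
          exact mul_le_mul_of_nonneg_right (by exact_mod_cast hmul v) (sq_nonneg _)
      _ = M * ∑ v ∈ range P, (D v) ^ 2 := by rw [mul_sum]
      _ ≤ _ := mul_le_mul_of_nonneg_left hvar (by positivity)
  have hcardQ : (Q.card : ℝ) ≤ P := by
    have : Q.card ≤ P := by
      calc Q.card ≤ (Icc 1 P).card := card_filter_le _ _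
        _ = P := by simp
    exact_mod_cast this
  have hcs : (∑ q ∈ Q, |D (u q)|) ^ 2 ≤ (√M * P * W / (Real.log P) ^ 2) ^ 2 := by
    have h1 := sq_sum_le_card_mul_sum_sq (s := Q) (f := fun q => |D (u q)|)
    simp only [sq_abs] at h1
    have hM : √(M : ℝ) ^ 2 = M := Real.sq_sqrt (by positivity)
    calc (∑ q ∈ Q, |D (u q)|) ^ 2 ≤ Q.card * ∑ q ∈ Q, (D (u q)) ^ 2 := h1
      _ ≤ P * (M * (P * (W : ℝ) ^ 2 / (Real.log P) ^ 4)) :=
          mul_le_mul hcardQ hsum2 (sum_nonneg fun _ _ => sq_nonneg _) hP0.le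
      _ = (√M ^ 2) * P ^ 2 * W ^ 2 / (Real.log P) ^ 4 := by rw [hM]; ring
      _ = _ := by ring
  have habs : ∑ q ∈ Q, |D (u q)| ≤ √M * P * W / (Real.log P) ^ 2 :=
    le_of_sq_le_sq hcs (by positivity)
  have hlower : (Q.card : ℝ) * W - √M * P * W / (Real.log P) ^ 2 ≤
      (∑ q ∈ Q, (((Ioc (u q) (u q + W)).filter Nat.Prime).card : ℝ)) * Real.log (2 * P) := by
    have h1 : ∀ q ∈ Q, (W : ℝ) - |D (u q)| ≤
        (((Ioc (u q) (u q + W)).filter Nat.Prime).card : ℝ) * Real.log (2 * P) := by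
      intro q hq
      have := partB P (u q) W hP1 (hu q (hQR hq)) hWP
      have h2 := neg_abs_le (D (u q))
      have h3 : D (u q) = ∑ s ∈ Icc 1 W, (th (u q + s) - 1) := rfl
      linarith
    have h2 := sum_le_sum h1
    rw [sum_sub_distrib, sum_const, nsmul_eq_mul, ← sum_mul] at h2
    linarith
  have hlog2 : Real.log (2 * P) ≤ 2 * Real.log P := by
    rw [Real.log_mul (by norm_num) hP0.ne']
    linarith
  have hS0 : 0 ≤ ∑ q ∈ Q, (((Ioc (u q) (u q + W)).filter Nat.Prime).card : ℝ) :=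
    sum_nonneg fun _ _ => by positivity
  have hW0 : (0 : ℝ) ≤ W := by positivity
  have h7 : (c0 * P / Real.log P) * W - √M * P * W / (Real.log P) ^ 2 ≤
      (∑ q ∈ Q, (((Ioc (u q) (u q + W)).filter Nat.Prime).card : ℝ)) * (2 * Real.log P) := by
    have h8 := mul_le_mul_of_nonneg_right hA hW0
    have h9 := mul_le_mul_of_nonneg_left hlog2 hS0
    linarith
  have h10 : c0 / 2 * P * W / Real.log P ≤
      (c0 * P / Real.log P) * W - √M * P * W / (Real.log P) ^ 2 := by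
    have h11 : √M / Real.log P ≤ c0 / 2 := by
      rw [div_le_iff₀ hl0]
      rw [div_le_iff₀ hc0] at he3
      linarith
    have h12 : √M * P * W / (Real.log P) ^ 2 = (√M / Real.log P) * (P * W / Real.log P) := by
      field_simp
    have h13 : (c0 * P / Real.log P) * W = c0 * (P * W / Real.log P) := by ring
    have h14 : c0 / 2 * P * W / Real.log P = c0 / 2 * (P * W / Real.log P) := by ring
    have h15 : 0 ≤ P * W / Real.log P := by positivity
    rw [h12, h13, h14]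
    nlinarith [mul_le_mul_of_nonneg_right h11 h15]
  have h16 := h10.trans h7
  have h17 : c0 / 4 * P * W / (Real.log P) ^ 2 = (c0 / 2 * P * W / Real.log P) / (2 * Real.log P) := by
    field_simp
    ring
  rw [h17, div_le_iff₀ (by linarith)]
  exact h16

end TZ1

end Pool.Agent.helper616_TW
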