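import Pool.Agent.helper616_TR.Defs
import Pool.Agent.helper616_RP.Defs

/-!
# Project TZ (helper616): the geometry of the short intervals
-/

set_option autoImplicit false
set_option maxHeartbeats 4000000

open Finset MeasureTheory Filter Topology
open Pool.Agent.helper616_RP (th S_VAR)

namespace Pool.Agent.helper616_TW

namespace TZ2


theorem geo_up (j : ℕ) (x y : ℝ) (hy : 0 ≤ y) (hxy : y ≤ x) :
    x ^ (j + 1) - y ^ (j + 1) ≤ (j + 1) * (x - y) * x ^ j := by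
  induction j with
  | zero => simp
  | succ j ih =>
    have hx : 0 ≤ x := hy.trans hxy
    have h1 : y ^ (j + 1) ≤ x ^ (j + 1) := pow_le_pow_left₀ hy hxy _
    have h2 : x * (x ^ (j + 1) - y ^ (j + 1)) ≤ x * ((j + 1) * (x - y) * x ^ j) :=
      mul_le_mul_of_nonneg_left ih hx
    have h3 : y ^ (j + 1) * (x - y) ≤ x ^ (j + 1) * (x - y) :=
      mul_le_mul_of_nonneg_right h1 (by linarith)
    have h4 : x ^ (j + 1 + 1) - y ^ (j + 1 + 1) =
        x * (x ^ (j + 1) - y ^ (j + 1)) + y ^ (j + 1) * (x - y) := by ring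
    rw [h4]
    push_cast
    calc x * (x ^ (j + 1) - y ^ (j + 1)) + y ^ (j + 1) * (x - y)
        ≤ x * ((j + 1) * (x - y) * x ^ j) + x ^ (j + 1) * (x - y) := add_le_add h2 h3
      _ = (j + 1 + 1) * (x - y) * x ^ (j + 1) := by ring

theorem geo_lo (j : ℕ) (x y : ℝ) (hy : 0 ≤ y) (hxy : y ≤ x) :
    (x - y) * x ^ j ≤ x ^ (j + 1) - y ^ (j + 1) := by
  have h1 : y ^ j ≤ x ^ j := pow_le_pow_left₀ hy hxy _
  have h2 : 0 ≤ y * (x ^ j - y ^ j) := mul_nonneg hy (by linarith)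
  have h3 : x ^ (j + 1) - y ^ (j + 1) - (x - y) * x ^ j = y * (x ^ j - y ^ j) := by ring
  linarith

/-- the interval of the `p` for given `q` -/
theorem geo (k : ℕ) (hk : 1 ≤ k) (a b τ : ℝ) (ha : 0 < a) (hab : a < b) (hτ : 0 < τ) :
    ∃ (η κ : ℝ) (M : ℕ), 0 < η ∧ η ≤ 1 ∧ 0 < κ ∧ ∀ᶠ P : ℕ in atTop, ∀ l₁ ∈ Set.Icc a b, ∀ l₂ ∈ Set.Icc a b, ∀ t : ℝ,
      τ * (P : ℝ) ^ k ≤ t → t ≤ a * (P : ℝ) ^ k / 2 → ∃ (W : ℕ) (u : ℕ → ℕ), κ * (P : ℝ) ^ ((2 : ℝ) / 5) ≤ W ∧ W ≤ P ∧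
      (∀ q ∈ (Icc 1 P).filter (fun q : ℕ => η * P / 2 < q ∧ (q : ℝ) ≤ η * P), u q < P) ∧
      (∀ v : ℕ, (((Icc 1 P).filter (fun q : ℕ => η * P / 2 < q ∧ (q : ℝ) ≤ η * P)).filter (fun q => u q = v)).card ≤ M) ∧
      ∀ q ∈ (Icc 1 P).filter (fun q : ℕ => η * P / 2 < q ∧ (q : ℝ) ≤ η * P), ∀ p ∈ Ioc (u q) (u q + W),
        p ≤ P ∧ t < l₁ * (p : ℝ) ^ k + l₂ * (q : ℝ) ^ k ∧ l₁ * (p : ℝ) ^ k + l₂ * (q : ℝ) ^ k ≤ t + (P : ℝ) ^ ((k : ℝ) - 3 / 5) := by
  classical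
  obtain ⟨j, rfl⟩ : ∃ j, k = j + 1 := ⟨k - 1, by omega⟩
  have hb : 0 < b := ha.trans hab
  have hj0 : (0 : ℝ) ≤ j := Nat.cast_nonneg j
  have hj1 : (0 : ℝ) < (j : ℝ) + 1 := by linarith
  set η : ℝ := min 1 (τ / (2 * b)) with hη
  have hη0 : 0 < η := lt_min one_pos (by positivity)
  have hη1 : η ≤ 1 := min_le_left _ _
  have hηb : b * η ≤ τ / 2 := by
    have h1 : η ≤ τ / (2 * b) := min_le_right _ _
    calc b * η ≤ b * (τ / (2 * b)) := mul_le_mul_of_nonneg_left h1 hb.le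
      _ = τ / 2 := by field_simp
  set c : ℝ := b * (j + 1) / a * (2 / η) ^ j with hc
  have hc0 : 0 < c := by positivity
  refine ⟨η, 1 / (2 * (b * (j + 1))), ⌊c⌋₊ + 1, hη0, hη1, by positivity, ?_⟩
  have e1 : ∀ᶠ P : ℕ in atTop, 2 * (b * (j + 1)) ≤ (P : ℝ) ^ ((2 : ℝ) / 5) :=
    ((tendsto_rpow_atTop (by norm_num : (0 : ℝ) < 2 / 5)).comp
      tendsto_natCast_atTop_atTop).eventually_ge_atTop _
  have e2 : ∀ᶠ P : ℕ in atTop, 2 / b ≤ (P : ℝ) ^ ((3 : ℝ) / 5) :=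
    ((tendsto_rpow_atTop (by norm_num : (0 : ℝ) < 3 / 5)).comp
      tendsto_natCast_atTop_atTop).eventually_ge_atTop _
  filter_upwards [e1, e2, eventually_ge_atTop 1] with P h1 h2 hP l₁ hl₁ l₂ hl₂ t ht1 ht2
  obtain ⟨hl1a, hl1b⟩ := hl₁
  obtain ⟨hl2a, hl2b⟩ := hl₂
  have hP0 : (0 : ℝ) < P := by exact_mod_cast hP
  have hl1 : 0 < l₁ := ha.trans_le hl1a
  have hl2 : 0 < l₂ := ha.trans_le hl2a
  set x : ℝ := (P : ℝ) ^ ((2 : ℝ) / 5) / (b * (j + 1)) with hx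
  have hx2 : 2 ≤ x := by
    rw [hx, le_div_iff₀ (by positivity)]
    exact h1
  have hxP : x ≤ P / (2 * (j + 1)) := by
    have h3 : (P : ℝ) = (P : ℝ) ^ ((2 : ℝ) / 5) * (P : ℝ) ^ ((3 : ℝ) / 5) := by
      rw [← Real.rpow_add hP0]
      norm_num
    have h4 : 2 ≤ b * (P : ℝ) ^ ((3 : ℝ) / 5) := by
      rw [div_le_iff₀ hb] at h2
      linarith
    rw [hx, div_le_div_iff₀ (by positivity) (by positivity)]
    calc (P : ℝ) ^ ((2 : ℝ) / 5) * (2 * (j + 1))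
        ≤ (P : ℝ) ^ ((2 : ℝ) / 5) * ((b * (P : ℝ) ^ ((3 : ℝ) / 5)) * (j + 1)) := by gcongr
      _ = ((P : ℝ) ^ ((2 : ℝ) / 5) * (P : ℝ) ^ ((3 : ℝ) / 5)) * (b * (j + 1)) := by ring
      _ = P * (b * (j + 1)) := by rw [← h3]
  let pr : ℕ → ℕ → Prop := fun q u => l₁ * (u : ℝ) ^ (j + 1) + l₂ * (q : ℝ) ^ (j + 1) ≤ t
  let u : ℕ → ℕ := fun q => Nat.findGreatest (pr q) P
  set W : ℕ := ⌊x⌋₊ with hW
  have hWx : (W : ℝ) ≤ x := Nat.floor_le (by linarith)
  have hWx2 : x < W + 1 := Nat.lt_floor_add_one x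
  have hPj : 0 < (P : ℝ) ^ j := by positivity
  have hPj1 : 0 < (P : ℝ) ^ (j + 1) := by positivity
  -- the value at `u q`
  have hu1 : ∀ q : ℕ, (q : ℝ) ≤ η * P → pr q (u q) := by
    intro q hq
    apply Nat.findGreatest_spec (P := pr q) (m := 0) (Nat.zero_le _)
    change l₁ * ((0 : ℕ) : ℝ) ^ (j + 1) + l₂ * (q : ℝ) ^ (j + 1) ≤ t
    rw [Nat.cast_zero, zero_pow (Nat.succ_ne_zero _), mul_zero, zero_add]
    have h3 : (q : ℝ) ^ (j + 1) ≤ (η * P) ^ (j + 1) := pow_le_pow_left₀ (Nat.cast_nonneg _) hq _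
    have h4 : η ^ (j + 1) ≤ η := by
      rw [pow_succ]
      exact mul_le_of_le_one_left hη0.le (pow_le_one₀ hη0.le hη1)
    calc l₂ * (q : ℝ) ^ (j + 1) ≤ b * (η * P) ^ (j + 1) := by gcongr
      _ = (b * η ^ (j + 1)) * (P : ℝ) ^ (j + 1) := by ring
      _ ≤ (b * η) * (P : ℝ) ^ (j + 1) := by gcongr
      _ ≤ (τ / 2) * (P : ℝ) ^ (j + 1) := by gcongr
      _ ≤ τ * (P : ℝ) ^ (j + 1) := by
          have := mul_pos hτ hPj1
          linarith
      _ ≤ t := ht1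
  have hu2 : ∀ q : ℕ, pr q (u q) → (u q : ℝ) ≤ P - P / (2 * (j + 1)) := by
    intro q hq
    by_contra hcon
    push Not at hcon
    have h3 : (0 : ℝ) ≤ P - P / (2 * (j + 1)) := by
      have : (P : ℝ) / (2 * (j + 1)) ≤ P := div_le_self hP0.le (by linarith)
      linarith
    have h4 : ((P : ℝ) - P / (2 * (j + 1))) ^ (j + 1) < (u q : ℝ) ^ (j + 1) :=
      pow_lt_pow_left₀ hcon h3 (Nat.succ_ne_zero _)
    have h5 : (1 : ℝ) + ((j + 1 : ℕ) : ℝ) * (-(1 / (2 * (j + 1)))) ≤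
        (1 + (-(1 / (2 * ((j : ℝ) + 1))))) ^ (j + 1) := by
      apply one_add_mul_le_pow
      have : 1 / (2 * ((j : ℝ) + 1)) ≤ 1 := by
        rw [div_le_one (by positivity)]
        linarith
      linarith
    have h6 : (1 : ℝ) + ((j + 1 : ℕ) : ℝ) * (-(1 / (2 * (j + 1)))) = 1 / 2 := by
      push_cast
      field_simp
      ring
    have h7 : ((P : ℝ) - P / (2 * (j + 1))) ^ (j + 1) =
        (1 + (-(1 / (2 * ((j : ℝ) + 1))))) ^ (j + 1) * (P : ℝ) ^ (j + 1) := by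
      rw [← mul_pow]
      congr 1
      field_simp
      ring
    rw [h6] at h5
    have h8 : (P : ℝ) ^ (j + 1) / 2 < (u q : ℝ) ^ (j + 1) := by
      refine lt_of_le_of_lt ?_ h4
      rw [h7]
      calc (P : ℝ) ^ (j + 1) / 2 = 1 / 2 * (P : ℝ) ^ (j + 1) := by ring
        _ ≤ _ := mul_le_mul_of_nonneg_right h5 hPj1.le
    have h9 : l₁ * (u q : ℝ) ^ (j + 1) + l₂ * (q : ℝ) ^ (j + 1) ≤ t := hq
    have h10 : 0 ≤ l₂ * (q : ℝ) ^ (j + 1) := by positivity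
    have h11 : a * (u q : ℝ) ^ (j + 1) ≤ l₁ * (u q : ℝ) ^ (j + 1) := by gcongr
    have h12 : a * ((P : ℝ) ^ (j + 1) / 2) < a * (u q : ℝ) ^ (j + 1) :=
      mul_lt_mul_of_pos_left h8 ha
    linarith
  have hPk : 0 < (P : ℝ) / (2 * (j + 1)) := by positivity
  have hu3 : ∀ q : ℕ, (q : ℝ) ≤ η * P → u q + W ≤ P ∧ u q < P := by
    intro q hq
    have h3 := hu2 q (hu1 q hq)
    constructor
    · have h4 : ((u q + W : ℕ) : ℝ) ≤ P := by
        push_cast
        linarith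
      exact_mod_cast h4
    · have h4 : ((u q : ℕ) : ℝ) < P := by linarith
      exact_mod_cast h4
  have hu4 : ∀ q p : ℕ, u q < p → p ≤ P → t < l₁ * (p : ℝ) ^ (j + 1) + l₂ * (q : ℝ) ^ (j + 1) := by
    intro q p h3 h4
    exact not_le.1 (Nat.findGreatest_is_greatest (P := pr q) h3 h4)
  refine ⟨W, u, ?_, ?_, ?_, ?_, ?_⟩
  · have h3 : 1 / (2 * (b * (j + 1))) * (P : ℝ) ^ ((2 : ℝ) / 5) = x / 2 := by
      rw [hx]
      field_simp
    rw [h3]
    linarith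
  · have h3 : (P : ℝ) / (2 * (j + 1)) ≤ P := div_le_self hP0.le (by linarith)
    have h4 : (W : ℝ) ≤ P := by linarith
    exact_mod_cast h4
  · intro q hq
    rw [mem_filter] at hq
    exact (hu3 q hq.2.2).2
  · intro v
    rcases (((Icc 1 P).filter (fun q : ℕ => η * P / 2 < q ∧ (q : ℝ) ≤ η * P)).filter
      (fun q => u q = v)).eq_empty_or_nonempty with he | hne
    · rw [he, card_empty]
      exact Nat.zero_le _
    · set Sv := ((Icc 1 P).filter (fun q : ℕ => η * P / 2 < q ∧ (q : ℝ) ≤ η * P)).filter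
        (fun q => u q = v) with hSv
      set m := Sv.min' hne with hm
      have hmS : m ∈ Sv := Sv.min'_mem hne
      have hsub : Sv ⊆ Icc m (m + ⌊c⌋₊) := by
        intro q' hq'
        have hmq : m ≤ q' := Sv.min'_le _ hq'
        rw [mem_Icc]
        refine ⟨hmq, ?_⟩
        rw [hSv, mem_filter, mem_filter] at hmS hq'
        obtain ⟨⟨-, hm1, hm2⟩, hmv⟩ := hmS
        obtain ⟨⟨-, hq1, hq2⟩, hqv⟩ := hq'
        have h3 : pr q' v := by
          rw [← hqv]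
          exact hu1 q' hq2
        have h3' : l₁ * (v : ℝ) ^ (j + 1) + l₂ * (q' : ℝ) ^ (j + 1) ≤ t := h3
        have hvP : v < P := by
          rw [← hqv]
          exact (hu3 q' hq2).2
        have h4 := hu4 m (v + 1) (by omega) hvP
        have hmq' : (m : ℝ) ≤ q' := by exact_mod_cast hmq
        have h5 := geo_up j ((v + 1 : ℕ) : ℝ) v (Nat.cast_nonneg _) (by push_cast; linarith)
        have h6 := geo_lo j (q' : ℝ) m (Nat.cast_nonneg _) hmq'
        have h7 : ((v + 1 : ℕ) : ℝ) ≤ P := by exact_mod_cast hvP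
        have h8 : ((v + 1 : ℕ) : ℝ) ^ j ≤ (P : ℝ) ^ j := pow_le_pow_left₀ (Nat.cast_nonneg _) h7 _
        have h9 : (((v + 1 : ℕ) : ℝ) ^ (j + 1) - (v : ℝ) ^ (j + 1)) ≤ (j + 1) * (P : ℝ) ^ j := by
          refine h5.trans ?_
          have h10 : (((v + 1 : ℕ) : ℝ) - v) = 1 := by push_cast; ring
          rw [h10, mul_one]
          exact mul_le_mul_of_nonneg_left h8 hj1.le
        have h10 : l₁ * (((v + 1 : ℕ) : ℝ) ^ (j + 1) - (v : ℝ) ^ (j + 1)) ≤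
            b * ((j + 1) * (P : ℝ) ^ j) := by
          refine (mul_le_mul_of_nonneg_left h9 hl1.le).trans ?_
          exact mul_le_mul_of_nonneg_right hl1b (by positivity)
        have h11 : (η * P / 2) ^ j ≤ (q' : ℝ) ^ j := pow_le_pow_left₀ (by positivity) hq1.le _
        have h12 : 0 ≤ (q' : ℝ) - m := by linarith
        have h13 : a * (((q' : ℝ) - m) * (η * P / 2) ^ j) ≤
            l₂ * ((q' : ℝ) ^ (j + 1) - (m : ℝ) ^ (j + 1)) := by
          calc a * (((q' : ℝ) - m) * (η * P / 2) ^ j) ≤ a * (((q' : ℝ) - m) * (q' : ℝ) ^ j) := by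
                gcongr
            _ ≤ a * ((q' : ℝ) ^ (j + 1) - (m : ℝ) ^ (j + 1)) :=
                mul_le_mul_of_nonneg_left h6 ha.le
            _ ≤ l₂ * ((q' : ℝ) ^ (j + 1) - (m : ℝ) ^ (j + 1)) :=
                mul_le_mul_of_nonneg_right hl2a ((mul_nonneg h12 (by positivity)).trans h6)
        have h14 : a * (((q' : ℝ) - m) * (η * P / 2) ^ j) < b * ((j + 1) * (P : ℝ) ^ j) := by
          have h15 : l₂ * ((q' : ℝ) ^ (j + 1) - (m : ℝ) ^ (j + 1)) <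
              l₁ * (((v + 1 : ℕ) : ℝ) ^ (j + 1) - (v : ℝ) ^ (j + 1)) := by
            rw [mul_sub, mul_sub]
            linarith
          linarith
        have h16 : a * (((q' : ℝ) - m) * (η * P / 2) ^ j) =
            (a * (((q' : ℝ) - m) * (η / 2) ^ j)) * (P : ℝ) ^ j := by
          rw [mul_div_right_comm, mul_pow]
          ring
        have h17 : b * ((j + 1) * (P : ℝ) ^ j) = (b * (j + 1)) * (P : ℝ) ^ j := by ring
        rw [h16, h17] at h14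
        have h18 : a * (((q' : ℝ) - m) * (η / 2) ^ j) < b * (j + 1) :=
          lt_of_mul_lt_mul_right h14 hPj.le
        have h19 : (q' : ℝ) - m < c := by
          have h20 : 0 < a * (η / 2) ^ j := by positivity
          have h21 : c = b * (j + 1) / (a * (η / 2) ^ j) := by
            rw [hc, div_pow, div_pow]
            field_simp
          rw [h21, lt_div_iff₀ h20]
          calc ((q' : ℝ) - m) * (a * (η / 2) ^ j) = a * (((q' : ℝ) - m) * (η / 2) ^ j) := by ring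
            _ < _ := h18
        have h22 : q' - m ≤ ⌊c⌋₊ := by
          apply Nat.le_floor
          rw [Nat.cast_sub hmq]
          exact h19.le
        omega
      refine (card_le_card hsub).trans ?_
      rw [Nat.card_Icc]
      omega
  · intro q hq p hp
    rw [mem_filter] at hq
    rw [mem_Ioc] at hp
    obtain ⟨h3, h4⟩ := hu3 q hq.2.2
    have hpP : p ≤ P := hp.2.trans h3
    refine ⟨hpP, hu4 q p hp.1 hpP, ?_⟩
    have h5 : l₁ * (u q : ℝ) ^ (j + 1) + l₂ * (q : ℝ) ^ (j + 1) ≤ t := hu1 q hq.2.2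
    have hup : (u q : ℝ) ≤ p := by exact_mod_cast hp.1.le
    have h6 := geo_up j (p : ℝ) (u q) (Nat.cast_nonneg _) hup
    have h7 : (p : ℝ) - u q ≤ W := by
      have h8 : (p : ℝ) ≤ u q + W := by exact_mod_cast hp.2
      linarith
    have hpP' : (p : ℝ) ≤ P := by exact_mod_cast hpP
    have h8 : (p : ℝ) ^ j ≤ (P : ℝ) ^ j := pow_le_pow_left₀ (Nat.cast_nonneg _) hpP' _
    have h9 : (p : ℝ) ^ (j + 1) - (u q : ℝ) ^ (j + 1) ≤ (j + 1) * x * (P : ℝ) ^ j := by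
      refine h6.trans ?_
      have h10 : (j + 1) * ((p : ℝ) - u q) ≤ (j + 1) * x :=
        mul_le_mul_of_nonneg_left (h7.trans hWx) hj1.le
      have h11 : 0 ≤ (p : ℝ) - u q := by linarith
      exact mul_le_mul h10 h8 (by positivity) (by positivity)
    have h10 : l₁ * ((p : ℝ) ^ (j + 1) - (u q : ℝ) ^ (j + 1)) ≤ b * ((j + 1) * x * (P : ℝ) ^ j) := by
      refine (mul_le_mul_of_nonneg_left h9 hl1.le).trans ?_
      exact mul_le_mul_of_nonneg_right hl1b (by positivity)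
    have h11 : b * ((j + 1) * x * (P : ℝ) ^ j) = (P : ℝ) ^ (((j + 1 : ℕ) : ℝ) - 3 / 5) := by
      have h12 : b * ((j + 1) * x * (P : ℝ) ^ j) = (P : ℝ) ^ ((2 : ℝ) / 5) * (P : ℝ) ^ j := by
        rw [hx]
        field_simp
      rw [h12, ← Real.rpow_natCast (P : ℝ) j, ← Real.rpow_add hP0]
      congr 1
      push_cast
      ring
    rw [h11, mul_sub] at h10
    linarith

end TZ2

end Pool.Agent.helper616_TW
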