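import Pool.Agent.helper616_TR.Defs
import Pool.Agent.helper616_RP.Defs
import Pool.Agent.helper616_TZ.TZ1
import Pool.Agent.helper616_TZ.TZ2

/-!
# Project TZ (helper616): two primes
-/

set_option autoImplicit false
set_option maxHeartbeats 4000000

open Finset MeasureTheory Filter Topology
open Pool.Agent.helper616_RP (th S_VAR)

namespace Pool.Agent.helper616_TW

open TZ1 (abstractV)
open TZ2 (geo)

namespace TZ3


/-- two prime variables -/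
theorem twoV (hH : Hoheisel) (hV : S_VAR) (k : ℕ) (hk : 1 ≤ k) (a b τ : ℝ) (ha : 0 < a) (hab : a < b) (hτ : 0 < τ) :
    ∃ c : ℝ, 0 < c ∧ ∀ᶠ P : ℕ in atTop, ∀ l₁ ∈ Set.Icc a b, ∀ l₂ ∈ Set.Icc a b, ∀ t : ℝ,
      τ * (P : ℝ) ^ k ≤ t → t ≤ a * (P : ℝ) ^ k / 2 →
      c * (P : ℝ) ^ ((7 : ℝ) / 5) / (Real.log P) ^ 2 ≤
        (((Icc 1 P ×ˢ Icc 1 P).filter (fun x : ℕ × ℕ => x.1.Prime ∧ x.2.Prime ∧ t < l₁ * (x.1 : ℝ) ^ k + l₂ * (x.2 : ℝ) ^ k ∧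
          l₁ * (x.1 : ℝ) ^ k + l₂ * (x.2 : ℝ) ^ k ≤ t + (P : ℝ) ^ ((k : ℝ) - 3 / 5))).card : ℝ) := by
  obtain ⟨η, κ, M, hη, hη1, hκ, hgeo⟩ := geo k hk a b τ ha hab hτ
  obtain ⟨c, hc, hV'⟩ := abstractV hH hV η κ hη hη1 hκ M
  refine ⟨c * κ, mul_pos hc hκ, ?_⟩
  filter_upwards [hgeo, hV', eventually_gt_atTop 1] with P h1 h2 hP l₁ hl₁ l₂ hl₂ t ht1 ht2
  obtain ⟨W, u, hW1, hW2, hu, hv, hpq⟩ := h1 l₁ hl₁ l₂ hl₂ t ht1 ht2
  have key := h2 W u hW1 hW2 hu hv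
  have hP0 : (0 : ℝ) < P := by
    have : (1 : ℝ) < P := by exact_mod_cast hP
    linarith
  have hlog : 0 < Real.log P := Real.log_pos (by exact_mod_cast hP)
  have e1 : (P : ℝ) ^ ((7 : ℝ) / 5) = P * (P : ℝ) ^ ((2 : ℝ) / 5) := by
    rw [← Real.rpow_one_add' hP0.le (by norm_num)]
    norm_num
  have e2 : c * κ * (P : ℝ) ^ ((7 : ℝ) / 5) / (Real.log P) ^ 2 ≤ c * P * W / (Real.log P) ^ 2 := by
    refine div_le_div_of_nonneg_right ?_ (by positivity)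
    rw [e1]
    calc c * κ * (P * (P : ℝ) ^ ((2 : ℝ) / 5)) = c * P * (κ * (P : ℝ) ^ ((2 : ℝ) / 5)) := by ring
      _ ≤ c * P * W := mul_le_mul_of_nonneg_left hW1 (by positivity)
  refine e2.trans (key.trans ?_)
  rw [← Nat.cast_sum, ← Finset.card_sigma]
  refine Nat.cast_le.2 (Finset.card_le_card_of_injOn (fun x : (_ : ℕ) × ℕ => (x.2, x.1)) ?_ ?_)
  · rintro ⟨q, p⟩ hx
    simp only [Finset.coe_sigma, Set.mem_sigma_iff, Finset.mem_coe, Finset.mem_filter,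
      Finset.mem_Icc] at hx
    obtain ⟨⟨⟨hq1, hqP⟩, hqp, hq2, hq3⟩, hpI, hpp⟩ := hx
    obtain ⟨g1, g2, g3⟩ := hpq q (by
      rw [Finset.mem_filter, Finset.mem_Icc]
      exact ⟨⟨hq1, hqP⟩, hq2, hq3⟩) p hpI
    simp only [Finset.coe_filter, Set.mem_setOf_eq, Finset.mem_product, Finset.mem_Icc]
    exact ⟨⟨⟨hpp.one_le, g1⟩, hq1, hqP⟩, hpp, hqp, g2, g3⟩
  · rintro ⟨q, p⟩ - ⟨q', p'⟩ - h
    simp only [Prod.mk.injEq] at h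
    obtain ⟨h1, h2⟩ := h
    subst h1 h2
    rfl

end TZ3

end Pool.Agent.helper616_TW
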