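import Pool.Agent.helper616_TR.Defs
import Pool.Agent.helper616_RP.Defs
import Pool.Agent.helper616_TZ.TZ3

/-!
# Project TZ (helper616): k+1 primes
-/

set_option autoImplicit false
set_option maxHeartbeats 4000000

open Finset MeasureTheory Filter Topology
open Pool.Agent.helper616_RP (th S_VAR)

namespace Pool.Agent.helper616_TW

open TZ3 (twoV)

namespace TZ4


lemma primes_lower (hH : Hoheisel) (e : ℝ) (he : 0 < e) (he1 : e ≤ 1) : ∃ c : ℝ, 0 < c ∧ ∀ᶠ P : ℕ in atTop,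
    c * P / Real.log P ≤ (((Icc 1 P).filter (fun p : ℕ => p.Prime ∧ (p : ℝ) ≤ e * P)).card : ℝ) := by
  obtain ⟨δ, η, hδ, hδ1, hη, X₀, hX₀, h⟩ := hH
  refine ⟨η * e / 4, by positivity, ?_⟩
  have hlim : ∀ᶠ P : ℕ in atTop, max (2 * (X₀ + 1) / e) (4 / e) ≤ (P : ℝ) :=
    (tendsto_natCast_atTop_atTop).eventually_ge_atTop _
  filter_upwards [hlim] with P hP
  have hP1 : 2 * (X₀ + 1) / e ≤ (P:ℝ) := (le_max_left _ _).trans hP
  have hP2 : 4 / e ≤ (P:ℝ) := (le_max_right _ _).trans hP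
  rw [div_le_iff₀ he] at hP1 hP2
  have hP0 : (0 : ℝ) ≤ P := Nat.cast_nonneg P
  have heP : e * P ≤ P := by nlinarith
  obtain ⟨X, hX⟩ : ∃ X : ℕ, X = ⌊e * P / 2⌋₊ := ⟨_, rfl⟩
  have hX1 : (X : ℝ) ≤ e * P / 2 := by rw [hX]; exact Nat.floor_le (by positivity)
  have hX2 : e * P / 2 < X + 1 := by rw [hX]; exact Nat.lt_floor_add_one _
  have hX3 : X₀ ≤ X := by
    rw [hX]
    apply Nat.le_floor
    linarith
  have hXX : 2 ≤ X := hX₀.trans hX3
  have hXr : (2 : ℝ) ≤ X := by exact_mod_cast hXX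
  have h1 := h X X hX3 (by
    calc (X : ℝ) ^ (1 - δ) ≤ (X : ℝ) ^ (1 : ℝ) :=
          Real.rpow_le_rpow_of_exponent_le (by linarith) (by linarith)
      _ = X := Real.rpow_one _) le_rfl
  have hXP : (X : ℝ) ≤ P := by linarith
  have hlX : 0 < Real.log X := Real.log_pos (by linarith)
  have hlXP : Real.log X ≤ Real.log P := Real.log_le_log (by linarith) hXP
  have h2 : η * e / 4 * P / Real.log P ≤ η * X / Real.log X := by
    refine div_le_div₀ (by positivity) ?_ hlX hlXP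
    have : e * P / 4 ≤ X := by linarith
    calc η * e / 4 * P = η * (e * P / 4) := by ring
      _ ≤ η * X := mul_le_mul_of_nonneg_left this hη.le
  refine h2.trans (h1.trans ?_)
  refine Nat.cast_le.2 (Finset.card_le_card ?_)
  intro p hp
  rw [Finset.mem_filter, Finset.mem_Ioc] at hp
  obtain ⟨⟨hp1, hp2⟩, hp3⟩ := hp
  have hp4 : (p : ℝ) ≤ X + X := by exact_mod_cast hp2
  have hp5 : (p : ℝ) ≤ P := by linarith
  rw [Finset.mem_filter, Finset.mem_Icc]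
  exact ⟨⟨hp3.one_lt.le, by exact_mod_cast hp5⟩, hp3, by linarith⟩

/-- `k + 1` prime variables -/
theorem lowerV (hH : Hoheisel) (hV : S_VAR) (k : ℕ) (hk : 1 ≤ k) (a b τ : ℝ) (ha : 0 < a) (hab : a < b)
    (hτ : 0 < τ) (hτa : τ < a / 2) : ∃ c : ℝ, 0 < c ∧ ∀ᶠ P : ℕ in atTop, ∀ l ∈ cube (k + 1) a b, ∀ t : ℝ,
      τ * (P : ℝ) ^ k ≤ t → t ≤ a * (P : ℝ) ^ k / 2 →
      c * (P : ℝ) ^ ((k : ℝ) + 1 - 3 / 5) / (Real.log P) ^ (k + 1) ≤
        (((box (k + 1) P).filter (fun x => (∀ i, (x i).Prime) ∧ t < F k l x ∧ F k l x ≤ t + (P : ℝ) ^ ((k : ℝ) - 3 / 5))).card : ℝ) := by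
  obtain ⟨m, rfl⟩ : ∃ m, k = m + 1 := ⟨k - 1, by omega⟩
  have hb : 0 < b := ha.trans hab
  have hm0 : (0 : ℝ) ≤ m := Nat.cast_nonneg m
  obtain ⟨e, he, he1, he2⟩ : ∃ e : ℝ, 0 < e ∧ e ≤ 1 ∧ (m:ℝ) * (b * e ^ (m + 1)) ≤ τ / 2 := by
    refine ⟨min 1 (τ / (2 * (m + 1) * b)), lt_min one_pos (by positivity), min_le_left _ _, ?_⟩
    obtain ⟨e, hee⟩ : ∃ e, e = min 1 (τ / (2 * (m + 1) * b)) := ⟨_, rfl⟩
    rw [← hee]
    have h1 : e ≤ 1 := by rw [hee]; exact min_le_left _ _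
    have h2 : e ≤ τ / (2 * (m + 1) * b) := by rw [hee]; exact min_le_right _ _
    have h0 : 0 < e := by rw [hee]; exact lt_min one_pos (by positivity)
    have h3 : e ^ (m + 1) ≤ e := by
      calc e ^ (m + 1) ≤ e ^ 1 := pow_le_pow_of_le_one h0.le h1 (by omega)
        _ = e := pow_one e
    rw [le_div_iff₀ (by positivity)] at h2
    have h4 : b * e ^ (m + 1) ≤ b * e := mul_le_mul_of_nonneg_left h3 hb.le
    have h5 : (m : ℝ) * (b * e ^ (m + 1)) ≤ (m + 1) * (b * e) := by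
      apply mul_le_mul (by linarith) h4 (by positivity) (by positivity)
    nlinarith
  obtain ⟨c1, hc1, h1⟩ := primes_lower hH e he he1
  obtain ⟨c2, hc2, h2⟩ := twoV hH hV (m + 1) hk a b (τ / 2) ha hab (by positivity)
  refine ⟨c1 ^ m * c2, by positivity, ?_⟩
  filter_upwards [h1, h2, eventually_ge_atTop 3] with P h1 h2 hP3 l hl t ht1 ht2
  have hP0 : (0 : ℝ) < P := by
    have : 0 < P := by omega
    exact_mod_cast this
  have hlP : 0 < Real.log P := Real.log_pos (by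
    have : 1 < P := by omega
    exact_mod_cast this)
  obtain ⟨A, hA⟩ : ∃ A : Finset ℕ, A = (Icc 1 P).filter (fun p : ℕ => p.Prime ∧ (p : ℝ) ≤ e * P) := ⟨_, rfl⟩
  rw [← hA] at h1
  have hAm : ∀ p ∈ A, 1 ≤ p ∧ p ≤ P ∧ p.Prime ∧ (p : ℝ) ≤ e * P := by
    intro p hp
    rw [hA, Finset.mem_filter, Finset.mem_Icc] at hp
    exact ⟨hp.1.1, hp.1.2, hp.2.1, hp.2.2⟩
  obtain ⟨T, hT⟩ : ∃ T : (Fin m → ℕ) → ℝ, T = fun y => ∑ i : Fin m, l i.succ.succ * (y i : ℝ) ^ (m + 1) := ⟨_, rfl⟩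
  obtain ⟨B, hBd⟩ : ∃ B : (Fin m → ℕ) → Finset (ℕ × ℕ), B = fun y => (Icc 1 P ×ˢ Icc 1 P).filter
    (fun x : ℕ × ℕ => x.1.Prime ∧ x.2.Prime ∧ t - T y < l 0 * (x.1 : ℝ) ^ (m + 1) +
      l (Fin.succ 0) * (x.2 : ℝ) ^ (m + 1) ∧
      l 0 * (x.1 : ℝ) ^ (m + 1) + l (Fin.succ 0) * (x.2 : ℝ) ^ (m + 1) ≤
        t - T y + (P : ℝ) ^ (((m + 1 : ℕ) : ℝ) - 3 / 5)) := ⟨_, rfl⟩
  have hT0 : ∀ y, 0 ≤ T y := by
    intro y
    rw [hT]
    refine Finset.sum_nonneg fun i _ => mul_nonneg (ha.le.trans (hl _).1) (by positivity)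
  have hTy : ∀ y ∈ Fintype.piFinset (fun _ : Fin m => A), T y ≤ τ / 2 * (P : ℝ) ^ (m + 1) := by
    intro y hy
    rw [Fintype.mem_piFinset] at hy
    have h3 : ∀ i : Fin m, l i.succ.succ * (y i : ℝ) ^ (m + 1) ≤ b * (e * P) ^ (m + 1) := by
      intro i
      apply mul_le_mul (hl _).2 _ (by positivity) hb.le
      exact pow_le_pow_left₀ (by positivity) (hAm _ (hy i)).2.2.2 _
    have h4 : T y ≤ ∑ _i : Fin m, b * (e * P) ^ (m + 1) := by
      rw [hT]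
      exact Finset.sum_le_sum fun i _ => h3 i
    refine h4.trans ?_
    rw [Finset.sum_const, Finset.card_univ, Fintype.card_fin, nsmul_eq_mul, mul_pow]
    calc (m : ℝ) * (b * (e ^ (m + 1) * (P : ℝ) ^ (m + 1))) = (m * (b * e ^ (m + 1))) * (P : ℝ) ^ (m + 1) := by ring
      _ ≤ τ / 2 * (P : ℝ) ^ (m + 1) := mul_le_mul_of_nonneg_right he2 (by positivity)
  have hB : ∀ y ∈ Fintype.piFinset (fun _ : Fin m => A),
      c2 * (P : ℝ) ^ ((7 : ℝ) / 5) / (Real.log P) ^ 2 ≤ ((B y).card : ℝ) := by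
    intro y hy
    have h3 := hTy y hy
    have h4 := hT0 y
    rw [hBd]
    exact h2 (l 0) (hl _) (l (Fin.succ 0)) (hl _) (t - T y) (by linarith) (by linarith)
  have hcard : ∑ y ∈ Fintype.piFinset (fun _ : Fin m => A), (B y).card ≤
      ((box (m + 1 + 1) P).filter (fun x => (∀ i, (x i).Prime) ∧ t < F (m + 1) l x ∧
        F (m + 1) l x ≤ t + (P : ℝ) ^ (((m + 1 : ℕ) : ℝ) - 3 / 5))).card := by
    rw [← Finset.card_sigma]
    apply Finset.card_le_card_of_injOn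
      (fun z : (Σ _ : Fin m → ℕ, ℕ × ℕ) => (Fin.cons z.2.1 (Fin.cons z.2.2 z.1 : Fin (m + 1) → ℕ) : Fin (m + 1 + 1) → ℕ))
    · rintro ⟨y, p, q⟩ hz
      rw [Finset.mem_coe, Finset.mem_sigma] at hz
      obtain ⟨hy, hpq⟩ := hz
      dsimp only at hy hpq
      rw [hBd] at hpq
      rw [Finset.mem_filter, Finset.mem_product, Finset.mem_Icc, Finset.mem_Icc] at hpq
      obtain ⟨⟨hp, hq⟩, hp', hq', h5, h6⟩ := hpq
      dsimp only at hp hq hp' hq' h5 h6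
      rw [Fintype.mem_piFinset] at hy
      have hF : F (m + 1) l (Fin.cons p (Fin.cons q y : Fin (m + 1) → ℕ) : Fin (m + 1 + 1) → ℕ) =
          l 0 * (p : ℝ) ^ (m + 1) + l (Fin.succ 0) * (q : ℝ) ^ (m + 1) + T y := by
        rw [hT]
        unfold F
        rw [Fin.sum_univ_succ, Fin.sum_univ_succ]
        simp only [Fin.cons_zero, Fin.cons_succ]
        ring
      rw [Finset.mem_coe, Finset.mem_filter]
      refine ⟨?_, ?_, ?_, ?_⟩
      · unfold box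
        rw [Fintype.mem_piFinset]
        intro i
        rw [Finset.mem_Icc]
        refine Fin.cases ?_ (fun j => ?_) i
        · simpa using hp
        · refine Fin.cases ?_ (fun j' => ?_) j
          · simpa using hq
          · simpa using ⟨(hAm _ (hy j')).1, (hAm _ (hy j')).2.1⟩
      · intro i
        refine Fin.cases ?_ (fun j => ?_) i
        · simpa using hp'
        · refine Fin.cases ?_ (fun j' => ?_) j
          · simpa using hq'
          · simpa using (hAm _ (hy j')).2.2.1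
      · dsimp only
        rw [hF]
        linarith
      · dsimp only
        rw [hF]
        linarith
    · rintro ⟨y, p, q⟩ _ ⟨y', p', q'⟩ _ h
      dsimp only at h
      have e1 := Fin.cons_injective2 h
      obtain ⟨e2, e3⟩ := e1
      have e4 := Fin.cons_injective2 e3
      obtain ⟨e5, e6⟩ := e4
      subst e2 e5 e6
      rfl
  have hsum : ((A.card : ℝ) ^ m) * (c2 * (P : ℝ) ^ ((7 : ℝ) / 5) / (Real.log P) ^ 2) ≤
      (((∑ y ∈ Fintype.piFinset (fun _ : Fin m => A), (B y).card : ℕ)) : ℝ) := by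
    push_cast
    have h7 := Finset.card_nsmul_le_sum (Fintype.piFinset (fun _ : Fin m => A))
      (fun y => ((B y).card : ℝ)) (c2 * (P : ℝ) ^ ((7 : ℝ) / 5) / (Real.log P) ^ 2) hB
    rw [Fintype.card_piFinset_const, nsmul_eq_mul] at h7
    push_cast at h7
    exact h7
  have h8 : (c1 * P / Real.log P) ^ m ≤ (A.card : ℝ) ^ m := pow_le_pow_left₀ (by positivity) h1 m
  have h9 : c1 ^ m * c2 * (P : ℝ) ^ (((m + 1 : ℕ) : ℝ) + 1 - 3 / 5) / (Real.log P) ^ (m + 1 + 1) =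
      (c1 * P / Real.log P) ^ m * (c2 * (P : ℝ) ^ ((7 : ℝ) / 5) / (Real.log P) ^ 2) := by
    have e1 : (((m + 1 : ℕ) : ℝ) + 1 - 3 / 5) = (m : ℝ) + 7 / 5 := by push_cast; ring
    rw [e1, Real.rpow_add hP0, Real.rpow_natCast, div_pow, mul_pow]
    field_simp
    ring
  rw [h9]
  have h10 : (c1 * P / Real.log P) ^ m * (c2 * (P : ℝ) ^ ((7 : ℝ) / 5) / (Real.log P) ^ 2) ≤
      (A.card : ℝ) ^ m * (c2 * (P : ℝ) ^ ((7 : ℝ) / 5) / (Real.log P) ^ 2) :=
    mul_le_mul_of_nonneg_right h8 (by positivity)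
  exact h10.trans (hsum.trans (Nat.cast_le.2 hcard))

end TZ4

end Pool.Agent.helper616_TW
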