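import Pool.Agent.helper616_TS.Dep
import Pool.Agent.helper616_RP.Var
import Pool.Agent.helper616_TW.TW12
import Pool.Agent.helper616_TP.Main
import Pool.Agent.helper616_TR.TR5
import Pool.Agent.helper616_TR.TR6
import Pool.Agent.helper616_TR.TR7
import Pool.Agent.helper616_TR.Main
import Pool.Agent.helper616_TZ.TZ4

/-!
# Project TZ (helper616): primes with almost all real coefficients, explicit number of variables
-/

set_option autoImplicit false

open Finset MeasureTheory Filter Topology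
open Pool.Agent.helper616_TS (t_Pl)

namespace Pool.Agent.helper616_TW

/-- the exceptional set for `k + 1` primes -/
theorem bad0V (k : ℕ) (hk : 1 ≤ k) (a b : ℝ) (ha : 0 < a) (hab : a < b) (τ h : ℝ) (hτ : 0 < τ) (hτa : τ < a / 2)
    (hh : 0 < h) : ∃ (C : ℝ) (K : ℕ), ∀ᶠ P : ℕ in atTop, ∫⁻ l in cube (k + 1) a b, volume (badP k P a τ h l) ≤
      ENNReal.ofReal (C * (Real.log P) ^ K * (P : ℝ) ^ ((k : ℝ) - 3 / 5)) :=
  TR7.bad0_at k hk (3 / 5) (by norm_num) (by norm_num) a b τ h hh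
    (TR7.var_at t_Pl k hk (3 / 5) (by norm_num) (by norm_num) a b h ha hab hh)
    (TZ4.lowerV hoh Pool.Agent.helper616_RP.t_VAR k hk a b τ ha hab hτ hτa)

/-- Waring–Goldbach with almost all real coefficients, `k + 1 + m` primes, `3 * 2 ^ m > 5 * k` -/
theorem waringV (k m : ℕ) (hk : 2 ≤ k) (hm : 5 * k < 3 * 2 ^ m) :
    ∀ᵐ l : Fin (k + 1 + m) → ℝ, (∀ i, 0 < l i) → ∀ h : ℝ, 0 < h → ∀ᶠ t : ℝ in atTop,
      ∃ x : Fin (k + 1 + m) → ℕ, (∀ i, (x i).Prime) ∧ t < F k l x ∧ F k l x ≤ t + h := by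
  have hm' : (k : ℝ) < 3 / 5 * 2 ^ m := by
    have : (5 : ℝ) * k < 3 * 2 ^ m := by exact_mod_cast hm
    linarith
  refine TW12.allpos _ _ fun a b ha hab => ?_
  refine TP6.cubesP k hk a b (3 / 5) ha hab (by norm_num) (by norm_num) m hm' ?_
  exact TP5.iterP k hk a b (3 / 5) ha hab (by norm_num) (by norm_num)
    (fun τ h hτ hτa hh => bad0V k (by omega) a b ha hab τ h hτ hτa hh) m

/-- two primes and one element of a set of bounded ratio -/
theorem two_primes_one (R : ℝ) (Z : Set ℕ) (hZ : ∀ X : ℝ, 1 ≤ X → ∃ z ∈ Z, X ≤ z ∧ (z : ℝ) ≤ R * X) :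
    ∀ᵐ l : Fin 3 → ℝ, (∀ i, 0 < l i) → ∀ h : ℝ, 0 < h → ∀ᶠ t : ℝ in atTop,
      ∃ p q z : ℕ, p.Prime ∧ q.Prime ∧ z ∈ Z ∧ t < l 0 * z + l 1 * p + l 2 * q ∧
        l 0 * z + l 1 * p + l 2 * q ≤ t + h := by
  have hR : 1 ≤ max R 1 := le_max_right _ _
  set A : ℕ → Set ℕ := fun j => if j < 2 then {p | p.Prime} else Z with hA
  have hA2 : ∀ i < 2, A i = {p | p.Prime} := fun i hi => by
    simp only [hA]
    rw [if_pos hi]
  have hAR : ∀ i, 2 ≤ i → i < 2 + 1 → Ratio (max R 1) (A i) := by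
    intro i hi _ X hX
    obtain ⟨z, hz, hz1, hz2⟩ := hZ X hX
    refine ⟨z, ?_, hz1, hz2.trans ?_⟩
    · have : ¬ i < 2 := by omega
      simp only [hA, this, if_false]
      exact hz
    · exact mul_le_mul_of_nonneg_right (le_max_left _ _) (by linarith)
  have hm : ((1 : ℕ) : ℝ) < 3 / 5 * 2 ^ 1 := by norm_num
  have main : ∀ᵐ l : Fin (2 + 1) → ℝ, (∀ i, 0 < l i) → ∀ h : ℝ, 0 < h → ∀ᶠ t : ℝ in atTop,
      ∃ x : Fin (2 + 1) → ℕ, Ok A x ∧ t < F 1 l x ∧ F 1 l x ≤ t + h := by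
    refine TW12.allpos _ _ fun a b ha hab => ?_
    refine TR6.cubesA A 1 2 le_rfl a b (3 / 5) ha hab (by norm_num) (by norm_num) 1 hm ?_
    refine TR5.iterA A 1 2 le_rfl a b (3 / 5) ha hab (by norm_num) (by norm_num) (fun τ h hτ hτa hh => ?_)
      (max R 1) hR 1 hAR
    obtain ⟨C, K, hC⟩ := bad0V 1 le_rfl a b ha hab τ h hτ hτa hh
    refine ⟨C, K, ?_⟩
    filter_upwards [hC] with P hP
    refine le_trans (le_of_eq ?_) hP
    exact lintegral_congr fun l => by rw [badA_two A hA2]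
  have main' : ∀ᵐ l : Fin 3 → ℝ, (∀ i, 0 < l i) → ∀ h : ℝ, 0 < h → ∀ᶠ t : ℝ in atTop,
      ∃ x : Fin 3 → ℕ, Ok A x ∧ t < F 1 l x ∧ F 1 l x ≤ t + h := main
  filter_upwards [main'] with l hl hpos h hh
  filter_upwards [hl hpos h hh] with t ht
  obtain ⟨x, hx, hx1, hx2⟩ := ht
  have hF : F 1 l x = l 0 * (x 0 : ℝ) + l 1 * (x 1 : ℝ) + l 2 * (x 2 : ℝ) := by
    unfold F
    simp [Fin.sum_univ_three]
  rw [hF] at hx1 hx2
  have h0 : x 0 ∈ Z := by
    have := hx 0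
    simpa [hA] using this
  have h1 : (x 1).Prime := by
    have := hx 1
    simpa [hA] using this
  have h2 : (x 2).Prime := by
    have := hx 2
    simpa [hA] using this
  exact ⟨x 1, x 2, x 0, h1, h2, h0, hx1, hx2⟩

end Pool.Agent.helper616_TW
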